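import Pool.Agent.Y865.KS.RP

/-!
Reflection positivity with an abstract mirror.
-/

set_option autoImplicit false
set_option linter.unusedSectionVars false

namespace Pool.Agent.Y865.SP

open Polynomial Set Pool.Agent.H207R2.BL Pool.Agent.Y865.KS

/-- The data of a mirror: heights `s`, the reflection `σ`, and an order `ord` of the vertices on the
mirror for which every half is crossless. -/
structure Mir {V : Type} (G : SimpleGraph V) (s : V → ℝ) (σ : V → V) (ord : V → ℝ) : Prop where
  inv : ∀ v, σ (σ v) = v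
  neg : ∀ v, s (σ v) = - s v
  fix : ∀ v, s v = 0 → σ v = v
  adj : ∀ u v, G.Adj u v → G.Adj (σ u) (σ v)
  no : ∀ u v, G.Adj u v → 0 < s u → 0 ≤ s v
  inj : ∀ u v, s u = 0 → s v = 0 → ord u = ord v → u = v
  cr : ∀ (U : Type) (n : ℕ) (φ : U ⊕ Fin n → V), Function.Injective φ → (∀ a, 0 ≤ s (φ a)) →
    (∀ i, s (φ (Sum.inr i)) = 0) →
    (∀ i j : Fin n, i < j → ord (φ (Sum.inr i)) < ord (φ (Sum.inr j))) → Crossless (G.comap φ)

theorem halves {V : Type} [Finite V] (G : SimpleGraph V) (s : V → ℝ) (σ : V → V) (ord : V → ℝ)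
    (h : Mir G s σ ord) :
    ∃ (U : Type) (_ : Finite U) (n : ℕ) (φ : U ⊕ Fin n → V), (∀ a, 0 ≤ s (φ a)) ∧
      Crossless (G.comap φ) ∧
      ∀ (K : SimpleGraph V), K ≤ G → ∀ p, IsChrom K p →
        IsChrom (glue (K.comap φ) (K.comap (σ ∘ φ))) p := by
  classical
  have hno := h.no
  have hσσ := h.inv
  have hneg := h.neg
  have hσinj : Function.Injective σ := fun a b hab => by
    rw [← hσσ a, ← hσσ b, hab]
  -- order the vertices on the axis
  let Bv := {v : V // s v = 0}
  have : Finite Bv := inferInstance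
  have : Fintype Bv := Fintype.ofFinite Bv
  have hinj : Function.Injective (fun v : Bv => ord v.1) := by
    intro a b hab
    exact Subtype.ext (h.inj _ _ a.2 b.2 hab)
  let _ : LinearOrder Bv := LinearOrder.lift' (fun v : Bv => ord v.1) hinj
  set n := Nat.card Bv with hn
  have hcard : Fintype.card Bv = n := by rw [hn, Nat.card_eq_fintype_card]
  let e : Fin n ≃o Bv := Fintype.orderIsoFinOfCardEq Bv hcard
  have he : ∀ i j : Fin n, i < j → ord (e i).1 < ord (e j).1 := by
    intro i j hij
    exact e.lt_iff_lt.2 hij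
  have hσe : ∀ i : Fin n, σ (e i).1 = (e i).1 := fun i => h.fix _ (e i).2
  let U := {v : V // 0 < s v}
  let φ : U ⊕ Fin n → V := Sum.elim (fun u => u.1) (fun i => (e i).1)
  have hφinj : Function.Injective φ := by
    rintro (a | a) (b | b) hab
    · exact congrArg Sum.inl (Subtype.ext hab)
    · exfalso
      have h1 : a.1 = (e b).1 := hab
      have h2 := a.2
      rw [h1, (e b).2] at h2
      exact lt_irrefl _ h2
    · exfalso
      have h1 : (e a).1 = b.1 := hab
      have h2 := b.2
      rw [← h1, (e a).2] at h2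
      exact lt_irrefl _ h2
    · exact congrArg Sum.inr (e.injective (Subtype.ext hab))
  have hφ0 : ∀ a, 0 ≤ s (φ a) := by
    rintro (a | a)
    · exact a.2.le
    · exact (e a).2.ge
  let N : SimpleGraph (U ⊕ Fin n) := G.comap φ
  have hNc : Crossless N := h.cr U n φ hφinj hφ0 (fun i => (e i).2) he
  refine ⟨U, inferInstance, n, φ, hφ0, hNc, ?_⟩
  intro K hK p hp
  let Φ : (U ⊕ U) ⊕ Fin n → V :=
    Sum.elim (Sum.elim (fun u => u.1) (fun u => σ u.1)) (fun i => (e i).1)
  have hσneg : ∀ u : U, s (σ u.1) < 0 := by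
    intro u
    rw [hneg]
    have := u.2
    simpa using this
  have hΦ : Function.Bijective Φ := by
    constructor
    · rintro ((a | a) | a) ((b | b) | b) hab
      · exact congrArg (fun x => Sum.inl (Sum.inl x)) (Subtype.ext hab)
      · exfalso
        have h1 : a.1 = σ b.1 := hab
        have h2 := hσneg b
        rw [← h1] at h2
        exact lt_asymm a.2 h2
      · exfalso
        have h1 : a.1 = (e b).1 := hab
        have h2 := a.2
        rw [h1, (e b).2] at h2
        exact lt_irrefl _ h2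
      · exfalso
        have h1 : σ a.1 = b.1 := hab
        have h2 := hσneg a
        rw [h1] at h2
        exact lt_asymm b.2 h2
      · exact congrArg (fun x => Sum.inl (Sum.inr x)) (Subtype.ext (hσinj hab))
      · exfalso
        have h1 : σ a.1 = (e b).1 := hab
        have h2 := hσneg a
        rw [h1, (e b).2] at h2
        exact lt_irrefl _ h2
      · exfalso
        have h1 : (e a).1 = b.1 := hab
        have h2 := b.2
        rw [← h1, (e a).2] at h2
        exact lt_irrefl _ h2
      · exfalso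
        have h1 : (e a).1 = σ b.1 := hab
        have h2 := hσneg b
        rw [← h1, (e a).2] at h2
        exact lt_irrefl _ h2
      · exact congrArg Sum.inr (e.injective (Subtype.ext hab))
    · intro v
      rcases lt_trichotomy 0 (s v) with h1 | h1 | h1
      · exact ⟨Sum.inl (Sum.inl ⟨v, h1⟩), rfl⟩
      · refine ⟨Sum.inr (e.symm ⟨v, h1.symm⟩), ?_⟩
        change (e (e.symm ⟨v, h1.symm⟩)).1 = v
        rw [e.apply_symm_apply]
      · refine ⟨Sum.inl (Sum.inr ⟨σ v, ?_⟩), ?_⟩
        · rw [hneg]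
          simpa using h1
        · exact hσσ v
  have hΦ1 : ∀ a : U ⊕ Fin n, Φ (Sum.map Sum.inl id a) = φ a := by
    rintro (a | a) <;> rfl
  have hΦ2 : ∀ a : U ⊕ Fin n, Φ (Sum.map Sum.inr id a) = σ (φ a) := by
    rintro (a | a)
    · rfl
    · exact (hσe a).symm
  have i1 : Function.Injective (Sum.map Sum.inl id : U ⊕ Fin n → (U ⊕ U) ⊕ Fin n) :=
    Sum.map_injective.2 ⟨Sum.inl_injective, Function.injective_id⟩
  have i2 : Function.Injective (Sum.map Sum.inr id : U ⊕ Fin n → (U ⊕ U) ⊕ Fin n) :=
    Sum.map_injective.2 ⟨Sum.inr_injective, Function.injective_id⟩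
  have first : ∀ a b : U ⊕ Fin n, K.Adj (Φ (Sum.map Sum.inl id a)) (Φ (Sum.map Sum.inl id b)) →
      (glue (K.comap φ) (K.comap (σ ∘ φ))).Adj (Sum.map Sum.inl id a) (Sum.map Sum.inl id b) := by
    intro a b h
    rw [hΦ1, hΦ1] at h
    exact Or.inl ⟨i1.ne (fun hab => h.ne (by rw [hab])), a, b, h, rfl, rfl⟩
  have second : ∀ a b : U ⊕ Fin n, K.Adj (Φ (Sum.map Sum.inr id a)) (Φ (Sum.map Sum.inr id b)) →
      (glue (K.comap φ) (K.comap (σ ∘ φ))).Adj (Sum.map Sum.inr id a) (Sum.map Sum.inr id b) := by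
    intro a b h
    rw [hΦ2, hΦ2] at h
    exact Or.inr ⟨i2.ne (fun hab => h.ne (by rw [hab])), a, b, h, rfl, rfl⟩
  have nomix : ∀ (a b : U), ¬ K.Adj a.1 (σ b.1) := by
    intro a b h
    have h1 := hno _ _ (hK h) a.2
    exact absurd (hσneg b) (not_lt.2 h1)
  let iso : glue (K.comap φ) (K.comap (σ ∘ φ)) ≃g K :=
    { Equiv.ofBijective Φ hΦ with
      map_rel_iff' := by
        intro x y
        change K.Adj (Φ x) (Φ y) ↔ (glue (K.comap φ) (K.comap (σ ∘ φ))).Adj x y
        constructor
        · intro h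
          rcases x with (a | a) | a <;> rcases y with (b | b) | b
          · exact first (Sum.inl a) (Sum.inl b) h
          · exact absurd h (nomix a b)
          · exact first (Sum.inl a) (Sum.inr b) h
          · exact absurd h.symm (nomix b a)
          · exact second (Sum.inl a) (Sum.inl b) h
          · exact second (Sum.inl a) (Sum.inr b) h
          · exact first (Sum.inr a) (Sum.inl b) h
          · exact second (Sum.inr a) (Sum.inl b) h
          · exact first (Sum.inr a) (Sum.inr b) h
        · rintro (⟨_, a, b, hab, rfl, rfl⟩ | ⟨_, a, b, hab, rfl, rfl⟩)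
          · rw [hΦ1, hΦ1]
            exact hab
          · rw [hΦ2, hΦ2]
            exact hab }
  exact hp.of_iso iso.symm

/-- **Reflection positivity** for a subgraph `K` of a mirror symmetric plane graph. -/
theorem fold_ineq {V : Type} [Finite V] (G : SimpleGraph V) (s : V → ℝ) (σ : V → V)
    (ord : V → ℝ) (h : Mir G s σ ord)
    (K : SimpleGraph V) (hK : K ≤ G) (q : ℝ) (hq : 4 ≤ q) (hne : (chr K).eval q ≠ 0) :
    0 < (chr (fu s σ K)).eval q ∧ 0 < (chr (fl s σ K)).eval q := by
  have hσσ := h.inv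
  have hσ0 := h.fix
  have hadj := h.adj
  have hadj' : ∀ u v, G.Adj (σ u) (σ v) → G.Adj u v := by
    intro u v h
    have := hadj _ _ h
    rwa [hσσ, hσσ] at this
  obtain ⟨U, hU, n, φ, hφ, hc, hg⟩ := halves G s σ ord h
  have hz : ∀ a, s (φ a) ≤ 0 → σ (φ a) = φ a := fun a ha => hσ0 _ (le_antisymm ha (hφ a))
  have hs2 : ∀ v, s (σ v) = - s v := h.neg
  have hfu : fu s σ K ≤ G := by
    rintro x y (⟨_, _, h3⟩ | ⟨_, _, h3⟩)
    · exact hK h3
    · exact hadj' _ _ (hK h3)
  have hfl : fl s σ K ≤ G := by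
    rintro x y (⟨_, _, h3⟩ | ⟨_, _, h3⟩)
    · exact hK h3
    · exact hadj' _ _ (hK h3)
  have e1 : (fu s σ K).comap φ = K.comap φ := by
    ext a b
    constructor
    · rintro (⟨_, _, h3⟩ | ⟨h1, h2, h3⟩)
      · exact h3
      · rw [hz a h1, hz b h2] at h3
        exact h3
    · intro h3
      exact Or.inl ⟨hφ a, hφ b, h3⟩
  have e2 : (fu s σ K).comap (σ ∘ φ) = K.comap φ := by
    ext a b
    constructor
    · rintro (⟨h1, h2, h3⟩ | ⟨h1, h2, h3⟩)
      · have h1' : s (φ a) ≤ 0 := by
          have : 0 ≤ s (σ (φ a)) := h1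
          rw [hs2] at this
          linarith
        have h2' : s (φ b) ≤ 0 := by
          have : 0 ≤ s (σ (φ b)) := h2
          rw [hs2] at this
          linarith
        have h3' : K.Adj (σ (φ a)) (σ (φ b)) := h3
        rw [hz a h1', hz b h2'] at h3'
        exact h3'
      · have h3' : K.Adj (σ (σ (φ a))) (σ (σ (φ b))) := h3
        rw [hσσ, hσσ] at h3'
        exact h3'
    · intro h3
      refine Or.inr ⟨?_, ?_, ?_⟩
      · change s (σ (φ a)) ≤ 0
        rw [hs2]
        have := hφ a
        linarith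
      · change s (σ (φ b)) ≤ 0
        rw [hs2]
        have := hφ b
        linarith
      · change K.Adj (σ (σ (φ a))) (σ (σ (φ b)))
        rw [hσσ, hσσ]
        exact h3
  have e3 : (fl s σ K).comap φ = K.comap (σ ∘ φ) := by
    ext a b
    constructor
    · rintro (⟨h1, h2, h3⟩ | ⟨h1, h2, h3⟩)
      · change K.Adj (σ (φ a)) (σ (φ b))
        rw [hz a h1, hz b h2]
        exact h3
      · exact h3
    · intro h3
      exact Or.inr ⟨hφ a, hφ b, h3⟩
  have e4 : (fl s σ K).comap (σ ∘ φ) = K.comap (σ ∘ φ) := by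
    ext a b
    constructor
    · rintro (⟨h1, h2, h3⟩ | ⟨h1, h2, h3⟩)
      · exact h3
      · have h1' : s (φ a) ≤ 0 := by
          have : 0 ≤ s (σ (φ a)) := h1
          rw [hs2] at this
          linarith
        have h2' : s (φ b) ≤ 0 := by
          have : 0 ≤ s (σ (φ b)) := h2
          rw [hs2] at this
          linarith
        have h3' : K.Adj (σ (σ (φ a))) (σ (σ (φ b))) := h3
        rw [hσσ, hσσ] at h3'
        change K.Adj (σ (φ a)) (σ (φ b))
        rw [hz a h1', hz b h2']
        exact h3'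
    · intro h3
      refine Or.inl ⟨?_, ?_, h3⟩
      · change s (σ (φ a)) ≤ 0
        rw [hs2]
        have := hφ a
        linarith
      · change s (σ (φ b)) ≤ 0
        rw [hs2]
        have := hφ b
        linarith
  have hcN : Crossless (K.comap φ) := crossless_mono (fun a b hab => hK hab) hc
  have hcM : Crossless (K.comap (σ ∘ φ)) :=
    crossless_mono (fun a b hab => hadj' _ _ (hK hab)) hc
  have g1 := hg (fu s σ K) hfu _ (chr_spec _)
  rw [e1, e2] at g1
  have g2 := hg (fl s σ K) hfl _ (chr_spec _)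
  rw [e3, e4] at g2
  have g3 := hg K hK _ (chr_spec _)
  obtain ⟨h1, h2, h3⟩ := two_ineq _ _ hcN hcM _ _ _ g1 g3 g2 q hq
  have h4 : 0 < (chr K).eval q ^ 2 := by positivity
  have h5 := lt_of_lt_of_le h4 h3
  constructor
  · rcases lt_or_eq_of_le h1 with h | h
    · exact h
    · rw [← h, zero_mul] at h5
      exact absurd h5 (lt_irrefl _)
  · rcases lt_or_eq_of_le h2 with h | h
    · exact h
    · rw [← h, mul_zero] at h5
      exact absurd h5 (lt_irrefl _)

end Pool.Agent.Y865.SP
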