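import Pool.Agent.Y865.SP.Stm
import Pool.Agent.Y865.SP.Alg

/-!
Kaleidoscopic graphs: assembly (abstract position of the vertices in a Euclidean space).
-/

set_option autoImplicit false
set_option linter.unusedSectionVars false

namespace Pool.Agent.Y865.SP

open Polynomial Set Pool.Agent.H207R2.BL Pool.Agent.Y865.KS
open scoped RealInnerProductSpace

section geo

variable {E : Type} [NormedAddCommGroup E] [InnerProductSpace ℝ E]

theorem inner_rf {n : E} (x : E) (hn : ‖n‖ = 1) : ⟪n, rf n x⟫ = - ⟪n, x⟫ := by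
  have hnn : ⟪n, n⟫ = (1 : ℝ) := by rw [real_inner_self_eq_norm_sq, hn]; norm_num
  rw [rf, inner_sub_right, inner_smul_right, hnn]
  ring

theorem rf_rf {n : E} (x : E) (hn : ‖n‖ = 1) : rf n (rf n x) = x := by
  have h1 := inner_rf x hn
  unfold rf at h1 ⊢
  rw [h1]
  module

theorem rf_self {n : E} (hn : ‖n‖ = 1) : rf n n = -n := by
  have hnn : ⟪n, n⟫ = (1 : ℝ) := by rw [real_inner_self_eq_norm_sq, hn]; norm_num
  rw [rf, hnn]
  module

theorem rf_neg (n x : E) : rf n (-x) = - rf n x := by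
  unfold rf
  rw [inner_neg_right]
  module

theorem rf_adj (n x y : E) : ⟪rf n x, y⟫ = ⟪x, rf n y⟫ := by
  unfold rf
  rw [inner_sub_left, inner_sub_right, inner_smul_left, inner_smul_right]
  simp only [conj_trivial]
  rw [real_inner_comm n x]
  ring

theorem rf_inj {n : E} (hn : ‖n‖ = 1) : Function.Injective (rf n) := by
  intro x y h
  rw [← rf_rf x hn, h, rf_rf y hn]

theorem Mirrors.neg {M : Set E} (hM : Mirrors M) {n : E} (hn : n ∈ M) : -n ∈ M := by
  have := hM.closed n hn n hn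
  rwa [rf_self (hM.unit n hn)] at this

theorem IsCh.sub {M C : Set E} (h : IsCh M C) : C ⊆ M := by
  obtain ⟨p, _, rfl⟩ := h
  intro n hn
  exact hn.1

theorem IsCh.neg_iff {M C : Set E} (hM : Mirrors M) (h : IsCh M C) {n : E} (hn : n ∈ M) :
    -n ∈ C ↔ n ∉ C := by
  obtain ⟨p, hp, rfl⟩ := h
  have h1 := hp n hn
  simp only [mem_setOf_eq, not_and, not_lt]
  constructor
  · rintro ⟨_, h2⟩ _
    rw [inner_neg_left] at h2
    linarith
  · intro h2
    refine ⟨hM.neg hn, ?_⟩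
    rw [inner_neg_left]
    have := lt_of_le_of_ne (h2 hn) h1
    linarith

theorem mem_rf_image {n : E} (hn : ‖n‖ = 1) (C : Set E) (m : E) :
    m ∈ rf n '' C ↔ rf n m ∈ C := by
  constructor
  · rintro ⟨x, hx, rfl⟩
    rwa [rf_rf x hn]
  · intro h
    exact ⟨rf n m, h, rf_rf m hn⟩

theorem IsCh.refl {M C : Set E} (hM : Mirrors M) (h : IsCh M C) {n : E} (hn : n ∈ M) :
    IsCh M (rf n '' C) := by
  obtain ⟨p, hp, rfl⟩ := h
  have hn1 := hM.unit n hn
  refine ⟨rf n p, ?_, ?_⟩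
  · intro m hm
    rw [← rf_adj]
    exact hp _ (hM.closed n hn m hm)
  · ext m
    rw [mem_rf_image hn1]
    simp only [mem_setOf_eq]
    rw [rf_adj]
    constructor
    · rintro ⟨h1, h2⟩
      refine ⟨?_, h2⟩
      have := hM.closed n hn _ h1
      rwa [rf_rf m hn1] at this
    · rintro ⟨h1, h2⟩
      exact ⟨hM.closed n hn m h1, h2⟩

theorem ne_neg_of_unit {n : E} (hn : ‖n‖ = 1) : n ≠ -n := by
  intro h
  have h1 : n = 0 := by
    have h2 : (2 : ℝ) • n = 0 := by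
      rw [two_smul]
      nth_rewrite 2 [h]
      simp
    exact (smul_eq_zero.1 h2).resolve_left two_ne_zero
  rw [h1, norm_zero] at hn
  exact zero_ne_one hn

end geo

section chrom

/-- the spanning subgraph of `G` formed by the edges inside `D` -/
def inside {V : Type} (G : SimpleGraph V) (D : Set V) : SimpleGraph V where
  Adj x y := x ∈ D ∧ y ∈ D ∧ G.Adj x y
  symm := ⟨fun _ _ h => ⟨h.2.1, h.1, h.2.2.symm⟩⟩
  loopless := ⟨fun _ h => G.loopless.irrefl _ h.2.2⟩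

theorem chr_inside {V : Type} [Finite V] (G : SimpleGraph V) (D : Set V) :
    chr (inside G D) = chr (G.induce D) * X ^ (Nat.card (Dᶜ : Set V)) := by
  classical
  refine (eq_chr (p := chr (G.induce D) * X ^ (Nat.card (Dᶜ : Set V))) ?_).symm
  intro k
  rw [eval_mul, chr_spec _ k, eval_pow, eval_X, card_colorings, card_colorings]
  have e : {g : V → Fin k // Proper (inside G D) g} ≃
      {g : D → Fin k // Proper (G.induce D) g} × ((Dᶜ : Set V) → Fin k) :=
    { toFun := fun g => ⟨⟨fun x => g.1 x.1, fun a b hab => g.2 a.1 b.1 ⟨a.2, b.2, hab⟩⟩,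
        fun x => g.1 x.1⟩
      invFun := fun g => ⟨fun x => if h : x ∈ D then g.1.1 ⟨x, h⟩ else g.2 ⟨x, h⟩, by
        rintro a b ⟨ha, hb, hab⟩
        simp only [dif_pos ha, dif_pos hb]
        exact g.1.2 ⟨a, ha⟩ ⟨b, hb⟩ hab⟩
      left_inv := fun g => by
        apply Subtype.ext
        funext x
        by_cases h : x ∈ D <;> simp [h]
      right_inv := fun g => by
        apply Prod.ext
        · apply Subtype.ext
          funext x
          simp [x.2]
        · funext x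
          have : (x : V) ∉ D := x.2
          simp [this] }
  have : Fintype V := Fintype.ofFinite V
  rw [Nat.card_congr e, Nat.card_prod, Nat.card_fun]
  simp

end chrom

section main

variable {E : Type} [NormedAddCommGroup E] [InnerProductSpace ℝ E]

/-- the properties of a mirror which are used -/
structure Mq {V : Type} [Finite V] (G : SimpleGraph V) (s : V → ℝ) (σ : V → V) (q : ℝ) : Prop where
  inv : ∀ v, σ (σ v) = v
  adj : ∀ u v, G.Adj u v → G.Adj (σ u) (σ v)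
  no : ∀ u v, G.Adj u v → 0 < s u → 0 ≤ s v
  fold : ∀ K : SimpleGraph V, K ≤ G → (chr K).eval q ≠ 0 →
    0 < (chr (fu s σ K)).eval q ∧ 0 < (chr (fl s σ K)).eval q

theorem Mq.fu_self {V : Type} [Finite V] {G : SimpleGraph V} {s : V → ℝ} {σ : V → V} {q : ℝ}
    (h : Mq G s σ q) : fu s σ G = G := by
  ext x y
  constructor
  · rintro (⟨_, _, h3⟩ | ⟨_, _, h3⟩)
    · exact h3
    · have := h.adj _ _ h3
      rwa [h.inv, h.inv] at this
  · intro hxy
    rcases lt_trichotomy (s x) 0 with h1 | h1 | h1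
    · refine Or.inr ⟨h1.le, ?_, h.adj _ _ hxy⟩
      by_contra h2
      push Not at h2
      exact absurd (h.no _ _ hxy.symm h2) (not_le.2 h1)
    · rcases le_total 0 (s y) with h2 | h2
      · exact Or.inl ⟨h1.ge, h2, hxy⟩
      · exact Or.inr ⟨h1.le, h2, h.adj _ _ hxy⟩
    · exact Or.inl ⟨h1.le, h.no _ _ hxy h1, hxy⟩

theorem Mir.toMq {V : Type} [Finite V] {G : SimpleGraph V} {s : V → ℝ} {σ : V → V} {ord : V → ℝ}
    (h : Mir G s σ ord) (q : ℝ) (hq : 4 ≤ q) : Mq G s σ q :=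
  ⟨h.inv, h.adj, h.no, fun K hK hne => fold_ineq G s σ ord h K hK q hq hne⟩

theorem Mq.neg {V : Type} [Finite V] {G : SimpleGraph V} {s : V → ℝ} {σ : V → V} {q : ℝ}
    (h : Mq G s σ q) : Mq G (fun v => - s v) σ q := by
  have e1 : ∀ K : SimpleGraph V, fu (fun v => - s v) σ K = fl s σ K := by
    intro K
    ext x y
    simp only [fu, fl, Left.nonneg_neg_iff, Left.neg_nonpos_iff]
  have e2 : ∀ K : SimpleGraph V, fl (fun v => - s v) σ K = fu s σ K := by
    intro K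
    ext x y
    simp only [fu, fl, Left.nonneg_neg_iff, Left.neg_nonpos_iff]
  refine ⟨h.inv, h.adj, ?_, ?_⟩
  · intro u v huv hu
    have hu' : s u < 0 := by linarith
    by_contra hv
    push Not at hv
    have hv' : 0 < s v := by linarith
    exact absurd (h.no v u huv.symm hv') (not_le.2 hu')
  · intro K hK hne
    rw [e1, e2]
    exact (h.fold K hK hne).symm

theorem main (hC : S_COMB) (hW : S_WALL) (hN : S_CONN) (hV : S_COVER) {V : Type} [Finite V]
    (G : SimpleGraph V) (M : Set E) (hM : Mirrors M) (hMne : M.Nonempty) (f : V → E)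
    (σ : E → V → V) (q : ℝ) (hq : 4 ≤ q) (hmir : ∀ n ∈ M, Mq G (fun v => ⟪n, f v⟫) (σ n) q)
    (hσ : ∀ n ∈ M, ∀ v, f (σ n v) = rf n (f v)) (C₀ : Set E) (hC₀ : IsCh M C₀)
    (K₀ : SimpleGraph V) (hK₀ : K₀ ≤ G)
    (hK₀' : ∀ x y, (∀ n ∈ C₀, 0 ≤ ⟪n, f x⟫) → (∀ n ∈ C₀, 0 ≤ ⟪n, f y⟫) → G.Adj x y → K₀.Adj x y)
    (hne : (chr K₀).eval q ≠ 0) :
    0 < (chr G).eval q := by
  classical
  let Ω : Type := {C : Set E // IsCh M C}
  let T : Type := {n : E // n ∈ M}
  have hΩ : Finite Ω := by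
    have h1 : ({C : Set E | IsCh M C}).Finite :=
      hM.fin.finite_subsets.subset (fun C hC => hC.sub)
    exact h1.to_subtype
  let r : T → Ω → Ω := fun t C => ⟨rf t.1 '' C.1, C.2.refl hM t.2⟩
  let side : T → Ω → Prop := fun t C => t.1 ∈ C.1
  let adj : Ω → Ω → Prop := fun C C' => AdjCh C.1 C'.1
  let D : Ω → Set V := fun C => {v | ∀ n ∈ C.1, 0 ≤ ⟪n, f v⟫}
  have hr : ∀ t w, r t (r t w) = w := by
    rintro ⟨t, ht⟩ ⟨C, hC⟩
    apply Subtype.ext
    change rf t '' (rf t '' C) = C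
    ext m
    rw [mem_rf_image (hM.unit t ht), mem_rf_image (hM.unit t ht), rf_rf m (hM.unit t ht)]
  have hside : ∀ t w, side t (r t w) ↔ ¬ side t w := by
    rintro ⟨t, ht⟩ ⟨C, hC⟩
    change t ∈ rf t '' C ↔ t ∉ C
    rw [mem_rf_image (hM.unit t ht), rf_self (hM.unit t ht)]
    exact hC.neg_iff hM ht
  have hsym : ∀ w w', adj w w' → adj w' w := by
    rintro ⟨C, hC⟩ ⟨C', hC'⟩ ⟨n, hn, h⟩
    change C' = _ at h
    have hn' : n ∈ C := hn
    have hnM := hC.sub hn'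
    have hne := ne_neg_of_unit (hM.unit n hnM)
    refine ⟨-n, ?_, ?_⟩
    · change -n ∈ C'
      rw [h]
      exact Or.inr rfl
    · change C = (C' \ {-n}) ∪ {- -n}
      rw [neg_neg, h]
      have h2 : -n ∉ C := fun h3 => ((hC.neg_iff hM hnM).1 h3) hn'
      ext m
      simp only [mem_union, mem_diff, mem_singleton_iff]
      constructor
      · intro hm
        by_cases h4 : m = n
        · exact Or.inr h4
        · refine Or.inl ⟨Or.inl ⟨hm, h4⟩, ?_⟩
          rintro rfl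
          exact h2 hm
      · rintro (⟨⟨h3, _⟩ | h3, h4⟩ | h3)
        · exact h3
        · exact absurd h3 h4
        · rw [h3]
          exact hn'
  have hadj : ∀ t w w', adj w w' → adj (r t w) (r t w') := by
    rintro ⟨t, ht⟩ ⟨C, hC⟩ ⟨C', hC'⟩ ⟨n, hn, h⟩
    have ht1 := hM.unit t ht
    refine ⟨rf t n, ⟨n, hn, rfl⟩, ?_⟩
    change rf t '' C' = (rf t '' C \ {rf t n}) ∪ {-rf t n}
    change C' = _ at h
    rw [h, image_union, image_diff (rf_inj ht1), image_singleton, image_singleton, rf_neg]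
  have hsep : ∀ t w w', adj w w' → side t w → ¬ side t w' → w' = r t w := by
    rintro ⟨t, ht⟩ ⟨C, hC⟩ ⟨C', hC'⟩ ⟨n, hn, h⟩ h1 h2
    change C' = _ at h
    change t ∈ C at h1
    change t ∉ C' at h2
    have htn : t = n := by
      by_contra h3
      apply h2
      rw [h]
      exact Or.inl ⟨h1, h3⟩
    subst htn
    apply Subtype.ext
    exact hW E M C C' t hM hC hC' h1 h
  have hconn : ∀ S : Set Ω, S.Nonempty → S ≠ Set.univ → ∃ w ∈ S, ∃ t, r t w ∉ S ∧ adj w (r t w) := by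
    intro S hS hSu
    obtain ⟨w, hw⟩ := hS
    obtain ⟨w', hw'⟩ := (Set.ne_univ_iff_exists_notMem S).1 hSu
    obtain ⟨C, C', n, h1, h2, h3, h4, h5, h6⟩ := hN E M hM (Subtype.val '' S)
      ⟨w.1, w.2, w, hw, rfl⟩ ⟨w'.1, w'.2, by
        rintro ⟨w'', h1, h2⟩
        exact hw' (Subtype.ext h2 ▸ h1)⟩
    obtain ⟨w0, hw0, rfl⟩ := h2
    have h7 := hW E M w0.1 C' n hM h1 h3 h5 h6
    refine ⟨w0, hw0, ⟨n, h1.sub h5⟩, ?_, ?_⟩
    · intro h8
      exact h4 ⟨_, h8, h7.symm⟩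
    · refine ⟨n, h5, ?_⟩
      change rf n '' w0.1 = _
      rw [← h7, h6]
  let 𝒮 : Set (Set Ω) := {S | ∃ K : SimpleGraph V, K ≤ G ∧ (chr K).eval q ≠ 0 ∧
    ∀ C ∈ S, ∀ x y, x ∈ D C → y ∈ D C → G.Adj x y → K.Adj x y}
  have hD : ∀ (t : T) (C : Ω) x, x ∈ D C → σ t.1 x ∈ D (r t C) := by
    rintro ⟨t, ht⟩ C x hx m hm
    have ht1 := hM.unit t ht
    have hm' : rf t m ∈ C.1 := (mem_rf_image ht1 C.1 m).1 hm
    have := hx _ hm'
    rw [rf_adj] at this
    rw [hσ t ht]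
    exact this
  have hstart : ∃ S ∈ 𝒮, S.Nonempty := by
    refine ⟨{⟨C₀, hC₀⟩}, ⟨K₀, hK₀, hne, ?_⟩, ⟨_, rfl⟩⟩
    rintro C hC x y hx hy hxy
    rw [Set.mem_singleton_iff] at hC
    subst hC
    exact hK₀' x y hx hy hxy
  have hpos : ∀ t, ∀ S ∈ 𝒮, foldP (r t) (side t) S ∈ 𝒮 := by
    rintro t S ⟨K, hK, hKq, hKS⟩
    have hm := hmir t.1 t.2
    have h1 := (hm.fold K hK hKq).1
    refine ⟨fu (fun v => ⟪t.1, f v⟫) (σ t.1) K, ?_, h1.ne', ?_⟩
    · rintro x y (⟨_, _, h3⟩ | ⟨_, _, h3⟩)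
      · exact hK h3
      · have := hm.adj _ _ (hK h3)
        rwa [hm.inv, hm.inv] at this
    · rintro C (⟨h2, h3⟩ | ⟨h2, h3⟩) x y hx hy hxy
      · exact Or.inl ⟨hx _ h2, hy _ h2, hKS C h3 x y hx hy hxy⟩
      · have h4 : -t.1 ∈ C.1 := (C.2.neg_iff hM t.2).2 h2
        have h5 := hx _ h4
        have h6 := hy _ h4
        rw [inner_neg_left] at h5 h6
        exact Or.inr ⟨by linarith, by linarith,
          hKS _ h3 _ _ (hD t C x hx) (hD t C y hy) (hm.adj _ _ hxy)⟩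
  have hmin : ∀ t, ∀ S ∈ 𝒮, foldM (r t) (side t) S ∈ 𝒮 := by
    rintro t S ⟨K, hK, hKq, hKS⟩
    have hm := hmir t.1 t.2
    have h1 := (hm.fold K hK hKq).2
    refine ⟨fl (fun v => ⟪t.1, f v⟫) (σ t.1) K, ?_, h1.ne', ?_⟩
    · rintro x y (⟨_, _, h3⟩ | ⟨_, _, h3⟩)
      · exact hK h3
      · have := hm.adj _ _ (hK h3)
        rwa [hm.inv, hm.inv] at this
    · rintro C (⟨h2, h3⟩ | ⟨h2, h3⟩) x y hx hy hxy
      · have h4 : -t.1 ∈ C.1 := (C.2.neg_iff hM t.2).2 h2
        have h5 := hx _ h4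
        have h6 := hy _ h4
        rw [inner_neg_left] at h5 h6
        exact Or.inl ⟨by linarith, by linarith, hKS C h3 x y hx hy hxy⟩
      · exact Or.inr ⟨hx _ h2, hy _ h2,
          hKS _ h3 _ _ (hD t C x hx) (hD t C y hy) (hm.adj _ _ hxy)⟩
  obtain ⟨K, hK, hKq, hKS⟩ := hC Ω T r side adj hr hside hsym hadj hsep hconn 𝒮 hstart hpos hmin
  have hKG : K = G := by
    apply le_antisymm hK
    intro x y hxy
    obtain ⟨C, hC, hC'⟩ := hV E M hM (f x) (f y) (fun n hn h => (hmir n hn).no x y hxy h)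
    exact hKS ⟨C, hC⟩ trivial x y (fun n hn => (hC' n hn).1) (fun n hn => (hC' n hn).2) hxy
  rw [hKG] at hKq
  obtain ⟨n, hn⟩ := hMne
  have hm := hmir n hn
  have h1 := (hm.fold G (le_refl _) hKq).1
  rwa [hm.fu_self] at h1

end main

end Pool.Agent.Y865.SP
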