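import Pool.Agent.Y865.SP.Stm
import Pool.Agent.Y865.SP.Alg

/-!
Graphs drawn on the sphere: the part in a closed hemisphere is crossless.
-/

set_option autoImplicit false
set_option linter.unusedSectionVars false

namespace Pool.Agent.Y865.SP

open Set Pool.Agent.H207R2.BL
open scoped RealInnerProductSpace

/-- a drawing in a topological space -/
def IsDr {X V : Type} [TopologicalSpace X] (G : SimpleGraph V) (f : V → X)
    (γ : V → V → ℝ → X) : Prop :=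
  Function.Injective f ∧
  (∀ u v : V, G.Adj u v →
    ContinuousOn (γ u v) (Set.Icc (0:ℝ) 1) ∧ Set.InjOn (γ u v) (Set.Icc (0:ℝ) 1) ∧
    γ u v 0 = f u ∧ γ u v 1 = f v ∧
    ∀ t ∈ Set.Ioo (0:ℝ) 1, ∀ w : V, γ u v t ≠ f w) ∧
  (∀ u v u' v' : V, G.Adj u v → G.Adj u' v' → s(u, v) ≠ s(u', v') →
    ∀ t ∈ Set.Ioo (0:ℝ) 1, ∀ t' ∈ Set.Ioo (0:ℝ) 1, γ u v t ≠ γ u' v' t')

section

variable {X V : Type} [TopologicalSpace X] {G : SimpleGraph V} {f : V → X} {γ : V → V → ℝ → X}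

/-- the part of the drawing spanned by a set of vertices -/
def Dq (G : SimpleGraph V) (f : V → X) (γ : V → V → ℝ → X) (S : Set V) : Set X :=
  {z | (∃ v ∈ S, z = f v) ∨ ∃ u ∈ S, ∃ v ∈ S, G.Adj u v ∧ ∃ t ∈ Ioo (0 : ℝ) 1, z = γ u v t}

theorem Dq_disjoint (h : IsDr G f γ) (S T : Set V) (hST : ∀ v, v ∈ S → v ∉ T)
    (z : X) (h1 : z ∈ Dq G f γ S) (h2 : z ∈ Dq G f γ T) : False := by
  obtain ⟨hf, he, hc⟩ := h
  rcases h1 with ⟨v, hv, rfl⟩ | ⟨u, hu, v, hv, huv, t, ht, rfl⟩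
  · rcases h2 with ⟨w, hw, h2⟩ | ⟨w, hw, x, hx, hwx, t, ht, h2⟩
    · exact hST v hv (hf h2 ▸ hw)
    · exact (he w x hwx).2.2.2.2 t ht v h2.symm
  · rcases h2 with ⟨w, hw, h2⟩ | ⟨w, hw, x, hx, hwx, t', ht', h2⟩
    · exact (he u v huv).2.2.2.2 t ht w h2
    · refine hc u v w x huv hwx ?_ t ht t' ht' h2
      intro h
      rcases Sym2.eq_iff.1 h with ⟨h, _⟩ | ⟨h, _⟩
      · exact hST u hu (h ▸ hw)
      · exact hST u hu (h ▸ hx)

theorem Dq_joined (h : IsDr G f γ) (S : Set V) {u v : V} (p : G.Walk u v)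
    (hp : ∀ w ∈ p.support, w ∈ S) : JoinedIn (Dq G f γ S) (f u) (f v) := by
  induction p with
  | nil =>
    exact JoinedIn.refl (Or.inl ⟨_, hp _ (by simp), rfl⟩)
  | @cons a b c hab p ih =>
    have ha : a ∈ S := hp a (by simp)
    have hb : b ∈ S := hp b (by simp)
    refine JoinedIn.trans ?_ (ih (fun w hw => hp w (by simp [hw])))
    obtain ⟨hcont, _, h0, h1, _⟩ := h.2.1 a b hab
    let P : Path (f a) (f b) :=
      { toFun := fun t : unitInterval => γ a b t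
        continuous_toFun := continuousOn_iff_continuous_domRestrict.1 hcont
        source' := by simpa using h0
        target' := by simpa using h1 }
    refine ⟨P, ?_⟩
    intro t
    change γ a b t ∈ _
    rcases eq_or_lt_of_le t.2.1 with ht | ht
    · left
      refine ⟨a, ha, ?_⟩
      rw [← ht, h0]
    · rcases eq_or_lt_of_le t.2.2 with ht' | ht'
      · left
        refine ⟨b, hb, ?_⟩
        rw [ht', h1]
      · right
        exact ⟨a, ha, b, hb, hab, t, ⟨ht, ht'⟩, rfl⟩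

end

abbrev E3 : Type := EuclideanSpace ℝ (Fin 3)

/-- orthogonal projection onto the plane of the first two basis vectors -/
noncomputable def pj (b : OrthonormalBasis (Fin 3) ℝ E3) (x : E3) : ℂ :=
  (⟪b 0, x⟫ : ℂ) + (⟪b 1, x⟫ : ℂ) * Complex.I

theorem pj_re (b : OrthonormalBasis (Fin 3) ℝ E3) (x : E3) : (pj b x).re = ⟪b 0, x⟫ := by
  simp [pj]

theorem pj_im (b : OrthonormalBasis (Fin 3) ℝ E3) (x : E3) : (pj b x).im = ⟪b 1, x⟫ := by
  simp [pj]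

theorem sq_sum (b : OrthonormalBasis (Fin 3) ℝ E3) (x : E3) :
    ⟪b 0, x⟫ ^ 2 + ⟪b 1, x⟫ ^ 2 + ⟪b 2, x⟫ ^ 2 = ‖x‖ ^ 2 := by
  have := b.sum_sq_norm_inner_right x
  rw [Fin.sum_univ_three] at this
  simpa [Real.norm_eq_abs, sq_abs] using this

theorem pj_sq (b : OrthonormalBasis (Fin 3) ℝ E3) (x : E3) :
    ‖pj b x‖ ^ 2 = ‖x‖ ^ 2 - ⟪b 2, x⟫ ^ 2 := by
  rw [← sq_sum b x, Complex.sq_norm, Complex.normSq_apply, pj_re, pj_im]
  ring

theorem pj_cont (b : OrthonormalBasis (Fin 3) ℝ E3) : Continuous (pj b) := by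
  unfold pj
  fun_prop

theorem pj_inj (b : OrthonormalBasis (Fin 3) ℝ E3) (x y : E3) (hx : ‖x‖ = 1) (hy : ‖y‖ = 1)
    (hx2 : 0 ≤ ⟪b 2, x⟫) (hy2 : 0 ≤ ⟪b 2, y⟫) (h : pj b x = pj b y) : x = y := by
  have h0 : ⟪b 0, x⟫ = ⟪b 0, y⟫ := by rw [← pj_re, ← pj_re, h]
  have h1 : ⟪b 1, x⟫ = ⟪b 1, y⟫ := by rw [← pj_im, ← pj_im, h]
  have h2 : ⟪b 2, x⟫ = ⟪b 2, y⟫ := by
    have e1 := pj_sq b x
    have e2 := pj_sq b y
    rw [h, hx] at e1
    rw [hy] at e2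
    have e3 : ⟪b 2, x⟫ ^ 2 = ⟪b 2, y⟫ ^ 2 := by linarith
    exact (pow_left_inj₀ hx2 hy2 two_ne_zero).1 e3
  have h3 := sq_sum b (x - y)
  simp only [inner_sub_right, h0, h1, h2, sub_self] at h3
  have h4 : ‖x - y‖ = 0 := by
    have : ‖x - y‖ ^ 2 = 0 := by rw [← h3]; ring
    exact pow_eq_zero_iff two_ne_zero |>.1 this
  exact sub_eq_zero.1 (norm_eq_zero.1 h4)

theorem crossless_hemi (hdisc : S_DISC) {U : Type} {m : ℕ} (N : SimpleGraph (U ⊕ Fin m))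
    (f : U ⊕ Fin m → E3) (γ : U ⊕ Fin m → U ⊕ Fin m → ℝ → E3) (h : IsDr N f γ)
    (b : OrthonormalBasis (Fin 3) ℝ E3) (hv1 : ∀ v, ‖f v‖ = 1)
    (he1 : ∀ u v, N.Adj u v → ∀ t ∈ Icc (0 : ℝ) 1, ‖γ u v t‖ = 1) (hv : ∀ v, 0 ≤ ⟪b 2, f v⟫)
    (he : ∀ u v, N.Adj u v → ∀ t ∈ Icc (0 : ℝ) 1, 0 ≤ ⟪b 2, γ u v t⟫)
    (hb : ∀ i : Fin m, ⟪b 2, f (Sum.inr i)⟫ = 0)
    (hx : ∀ i j : Fin m, i < j → (pj b (f (Sum.inr i))).arg < (pj b (f (Sum.inr j))).arg) :
    Crossless N := by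
  intro i j k l hij hjk hkl p p'
  by_contra hcon
  push Not at hcon
  let S : Set (U ⊕ Fin m) := {v | v ∈ p.support}
  let T : Set (U ⊕ Fin m) := {v | v ∈ p'.support}
  have j1 := Dq_joined h S p (fun w hw => hw)
  have j2 := Dq_joined h T p' (fun w hw => hw)
  have hup : ∀ (X : Set (U ⊕ Fin m)) z, z ∈ Dq N f γ X → ‖z‖ = 1 ∧ 0 ≤ ⟪b 2, z⟫ := by
    rintro X z (⟨v, _, rfl⟩ | ⟨u, _, v, _, huv, t, ht, rfl⟩)
    · exact ⟨hv1 v, hv v⟩
    · exact ⟨he1 u v huv t ⟨ht.1.le, ht.2.le⟩, he u v huv t ⟨ht.1.le, ht.2.le⟩⟩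
  let A : ℝ → E3 := fun s => j1.somePath.extend s
  let B : ℝ → E3 := fun s => j2.somePath.extend s
  have hA : ∀ s, A s ∈ Dq N f γ S := by
    intro s
    have := j1.somePath_mem (Set.projIcc 0 1 zero_le_one s)
    exact this
  have hB : ∀ s, B s ∈ Dq N f γ T := by
    intro s
    have := j2.somePath_mem (Set.projIcc 0 1 zero_le_one s)
    exact this
  have hAc : Continuous A := j1.somePath.extend.continuous
  have hBc : Continuous B := j2.somePath.extend.continuous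
  have hA0 : A 0 = f (Sum.inr i) := by simp [A]
  have hA1 : A 1 = f (Sum.inr k) := by simp [A]
  have hB0 : B 0 = f (Sum.inr j) := by simp [B]
  have hB1 : B 1 = f (Sum.inr l) := by simp [B]
  have hn1 : ∀ x : E3, ‖x‖ = 1 → ‖pj b x‖ ≤ 1 := by
    intro x hx
    have h1 := pj_sq b x
    rw [hx] at h1
    have h2 : ‖pj b x‖ ^ 2 ≤ 1 := by nlinarith [sq_nonneg ⟪b 2, x⟫]
    nlinarith [norm_nonneg (pj b x)]
  have hcb : ∀ i : Fin m, pj b (f (Sum.inr i)) =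
      Complex.exp (((pj b (f (Sum.inr i))).arg : ℝ) * Complex.I) := by
    intro i
    have h1 := pj_sq b (f (Sum.inr i))
    rw [hv1, hb i] at h1
    have h2 : ‖pj b (f (Sum.inr i))‖ = 1 := by
      have h3 : ‖pj b (f (Sum.inr i))‖ ^ 2 = 1 := by rw [h1]; ring
      have h4 := norm_nonneg (pj b (f (Sum.inr i)))
      nlinarith
    have h3 := Complex.norm_mul_exp_arg_mul_I (pj b (f (Sum.inr i)))
    rw [h2, Complex.ofReal_one, one_mul] at h3
    exact h3.symm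
  obtain ⟨s, t, -, -, hst⟩ := hdisc (fun s => pj b (A s)) (fun s => pj b (B s))
    ((pj_cont b).comp hAc) ((pj_cont b).comp hBc) (fun s => hn1 _ (hup S _ (hA s)).1)
    (fun s => hn1 _ (hup T _ (hB s)).1)
    (pj b (f (Sum.inr i))).arg (pj b (f (Sum.inr j))).arg (pj b (f (Sum.inr k))).arg
    (pj b (f (Sum.inr l))).arg
    (hx i j hij) (hx j k hjk) (hx k l hkl) (by
      have h1 := Complex.neg_pi_lt_arg (pj b (f (Sum.inr i)))
      have h2 := Complex.arg_le_pi (pj b (f (Sum.inr l)))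
      linarith)
    (by rw [hA0]; exact hcb i) (by rw [hA1]; exact hcb k) (by rw [hB0]; exact hcb j)
    (by rw [hB1]; exact hcb l)
  have hst' : A s = B t := by
    obtain ⟨a1, a2⟩ := hup S _ (hA s)
    obtain ⟨b1, b2⟩ := hup T _ (hB t)
    exact pj_inj b _ _ a1 b1 a2 b2 hst
  refine Dq_disjoint h S T ?_ (A s) (hA s) (hst' ▸ hB t)
  intro v hvS hvT
  exact hcon v hvS hvT

/-- an orthonormal basis whose last vector is a given unit vector -/
theorem exists_basis (n : E3) (hn : ‖n‖ = 1) : ∃ b : OrthonormalBasis (Fin 3) ℝ E3, b 2 = n := by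
  have h1 : Orthonormal ℝ (({2} : Set (Fin 3)).restrict (fun _ : Fin 3 => n)) := by
    constructor
    · intro i
      exact hn
    · intro i j hij
      exact absurd (Subsingleton.elim i j) hij
  obtain ⟨b, hb⟩ := h1.exists_orthonormalBasis_extension_of_card_eq (ι := Fin 3) (𝕜 := ℝ) (E := E3)
    (by simp)
  exact ⟨b, hb 2 (by simp)⟩

/-- the mirror data of a drawing on the sphere -/
theorem sphere_mir (hdisc : S_DISC) {V : Type} (G : SimpleGraph V) (f : V → E3)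
    (γ : V → V → ℝ → E3) (h : IsDr G f γ) (hv1 : ∀ v, ‖f v‖ = 1)
    (he1 : ∀ u v, G.Adj u v → ∀ t ∈ Icc (0 : ℝ) 1, ‖γ u v t‖ = 1) (n : E3) (hn : ‖n‖ = 1)
    (σ : V → V) (hσ : ∀ v, f (σ v) = rf n (f v)) (hadj : ∀ u v, G.Adj u v → G.Adj (σ u) (σ v))
    (hno : ∀ u v, G.Adj u v → 0 < ⟪n, f u⟫ → 0 ≤ ⟪n, f v⟫)
    (hup : ∀ u v, G.Adj u v → 0 ≤ ⟪n, f u⟫ → 0 ≤ ⟪n, f v⟫ → ∀ t ∈ Icc (0 : ℝ) 1,
      0 ≤ ⟪n, γ u v t⟫) :
    ∃ ord : V → ℝ, Mir G (fun v => ⟪n, f v⟫) σ ord := by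
  obtain ⟨b, hb⟩ := exists_basis n hn
  have hnn : ⟪n, n⟫ = (1 : ℝ) := by rw [real_inner_self_eq_norm_sq, hn]; norm_num
  have hneg : ∀ v, ⟪n, f (σ v)⟫ = - ⟪n, f v⟫ := by
    intro v
    rw [hσ, rf, inner_sub_right, inner_smul_right, hnn]
    ring
  have hrr : ∀ x : E3, rf n (rf n x) = x := by
    intro x
    have h1 : ⟪n, rf n x⟫ = - ⟪n, x⟫ := by
      rw [rf, inner_sub_right, inner_smul_right, hnn]
      ring
    unfold rf at h1 ⊢
    rw [h1]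
    module
  refine ⟨fun v => (pj b (f v)).arg, ?_, hneg, ?_, hadj, hno, ?_, ?_⟩
  · intro v
    apply h.1
    rw [hσ, hσ, hrr]
  · intro v hv
    apply h.1
    have hv' : ⟪n, f v⟫ = (0 : ℝ) := hv
    rw [hσ, rf, hv']
    simp
  · intro u v hu hv huv
    apply h.1
    have hu' : ⟪b 2, f u⟫ = (0 : ℝ) := by rw [hb]; exact hu
    have hv' : ⟪b 2, f v⟫ = (0 : ℝ) := by rw [hb]; exact hv
    refine pj_inj b _ _ (hv1 u) (hv1 v) hu'.ge hv'.ge ?_
    have hnorm : ∀ w, ⟪b 2, f w⟫ = (0 : ℝ) → ‖pj b (f w)‖ = 1 := by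
      intro w hw
      have h1 := pj_sq b (f w)
      rw [hv1, hw] at h1
      have h4 := norm_nonneg (pj b (f w))
      nlinarith
    have e1 := Complex.norm_mul_exp_arg_mul_I (pj b (f u))
    have e2 := Complex.norm_mul_exp_arg_mul_I (pj b (f v))
    have huv' : (pj b (f u)).arg = (pj b (f v)).arg := huv
    rw [hnorm u hu', huv'] at e1
    rw [hnorm v hv'] at e2
    exact e1.symm.trans e2
  · intro U m φ hφ hφ0 hφb hφx
    refine crossless_hemi hdisc (G.comap φ) (fun a => f (φ a)) (fun a c => γ (φ a) (φ c)) ?_ b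
      (fun v => hv1 _) (fun u v huv => he1 _ _ huv) (fun v => by rw [hb]; exact hφ0 v)
      (fun u v huv t ht => by rw [hb]; exact hup _ _ huv (hφ0 u) (hφ0 v) t ht)
      (fun i => by rw [hb]; exact hφb i) hφx
    refine ⟨h.1.comp hφ, ?_, ?_⟩
    · intro u v huv
      obtain ⟨h1, h2, h3, h4, h5⟩ := h.2.1 _ _ huv
      exact ⟨h1, h2, h3, h4, fun t ht w => h5 t ht _⟩
    · intro u v u' v' huv huv' hne
      refine h.2.2 _ _ _ _ huv huv' ?_
      intro h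
      apply hne
      have := Sym2.map.injective hφ (a₁ := s(u, v)) (a₂ := s(u', v')) (by simpa using h)
      exact this

end Pool.Agent.Y865.SP
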