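import Pool.Agent.Y865.SP.Asm
import Pool.Agent.Y865.SP.Hemi
import Pool.Agent.Y165.SP.Comb
import Pool.Agent.Y445.SP.WallCover
import Pool.Agent.Y79.SP.Conn
import Pool.Agent.Y438.SP.Disc
import Pool.Agent.Y865.RF.Fin

/-!
Kaleidoscopic graphs on the sphere: final assembly.
-/

set_option autoImplicit false
set_option linter.unusedSectionVars false

namespace Pool.Agent.Y865.SP

open Polynomial Set Pool.Agent.H207R2.BL
open scoped RealInnerProductSpace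

/-- the part of a spherical drawing in a closed hemisphere is planar -/
theorem hemi_planar {V : Type} (G : SimpleGraph V) (f : V → E3) (γ : V → V → ℝ → E3)
    (h : IsDr G f γ) (hv1 : ∀ v, ‖f v‖ = 1)
    (he1 : ∀ u v, G.Adj u v → ∀ t ∈ Icc (0 : ℝ) 1, ‖γ u v t‖ = 1) (n : E3) (hn : ‖n‖ = 1)
    (hup : ∀ u v, G.Adj u v → 0 ≤ ⟪n, f u⟫ → 0 ≤ ⟪n, f v⟫ → ∀ t ∈ Icc (0 : ℝ) 1,
      0 ≤ ⟪n, γ u v t⟫) (D : Set V) (hD : ∀ v ∈ D, 0 ≤ ⟪n, f v⟫) :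
    ¬ Pool.Agent.Y865.RF.WK _ (G.induce D) := by
  obtain ⟨b, hb⟩ := exists_basis n hn
  let π : E3 → ℝ × ℝ := fun x => (⟪b 0, x⟫, ⟪b 1, x⟫)
  have hπc : Continuous π := by
    change Continuous (fun x : E3 => ((⟪b 0, x⟫ : ℝ), (⟪b 1, x⟫ : ℝ)))
    fun_prop
  have hπ : ∀ x y : E3, ‖x‖ = 1 → ‖y‖ = 1 → 0 ≤ ⟪n, x⟫ → 0 ≤ ⟪n, y⟫ → π x = π y → x = y := by
    intro x y hx hy hx2 hy2 hxy
    refine pj_inj b x y hx hy (by rwa [hb]) (by rwa [hb]) ?_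
    apply Complex.ext
    · rw [pj_re, pj_re]
      exact congrArg Prod.fst hxy
    · rw [pj_im, pj_im]
      exact congrArg Prod.snd hxy
  have hin : ∀ u v : D, (G.induce D).Adj u v → ∀ t ∈ Icc (0 : ℝ) 1,
      ‖γ u.1 v.1 t‖ = 1 ∧ 0 ≤ ⟪n, γ u.1 v.1 t⟫ := by
    intro u v huv t ht
    exact ⟨he1 _ _ huv t ht, hup _ _ huv (hD _ u.2) (hD _ v.2) t ht⟩
  apply Pool.Agent.Y865.RF.pl D (G.induce D) (fun v => π (f v.1)) (fun u v t => π (γ u.1 v.1 t))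
  refine ⟨?_, ?_, ?_⟩
  · intro u v huv
    apply Subtype.ext
    apply h.1
    exact hπ _ _ (hv1 _) (hv1 _) (hD _ u.2) (hD _ v.2) huv
  · intro u v huv
    obtain ⟨h1, h2, h3, h4, h5⟩ := h.2.1 u.1 v.1 huv
    refine ⟨hπc.comp_continuousOn h1, ?_, ?_, ?_, ?_⟩
    · intro s hs t ht hst
      obtain ⟨a1, a2⟩ := hin u v huv s hs
      obtain ⟨b1, b2⟩ := hin u v huv t ht
      exact h2 hs ht (hπ _ _ a1 b1 a2 b2 hst)
    · change π (γ u.1 v.1 0) = _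
      rw [h3]
    · change π (γ u.1 v.1 1) = _
      rw [h4]
    · intro t ht w hw
      obtain ⟨a1, a2⟩ := hin u v huv t ⟨ht.1.le, ht.2.le⟩
      exact h5 t ht w.1 (hπ _ _ a1 (hv1 _) a2 (hD _ w.2) hw)
  · intro u v u' v' huv huv' hne t ht t' ht' hcon
    obtain ⟨a1, a2⟩ := hin u v huv t ⟨ht.1.le, ht.2.le⟩
    obtain ⟨b1, b2⟩ := hin u' v' huv' t' ⟨ht'.1.le, ht'.2.le⟩
    refine h.2.2 u.1 v.1 u'.1 v'.1 huv huv' ?_ t ht t' ht' (hπ _ _ a1 b1 a2 b2 hcon)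
    intro h6
    apply hne
    exact Sym2.map.injective Subtype.val_injective (a₁ := s(u, v)) (a₂ := s(u', v'))
      (by simpa using h6)

/-- every edge whose two ends are in the closed half space of `n` is drawn there -/
def HalfDrawn {V : Type} (G : SimpleGraph V) (f : V → E3) (γ : V → V → ℝ → E3) (n : E3) : Prop :=
  ∀ u v, G.Adj u v → 0 ≤ ⟪n, f u⟫ → 0 ≤ ⟪n, f v⟫ → ∀ t ∈ Icc (0 : ℝ) 1, 0 ≤ ⟪n, γ u v t⟫

theorem rf_neg_left (n x : E3) : rf (-n) x = rf n x := by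
  unfold rf
  rw [inner_neg_left]
  module

theorem sphere_main {V : Type} [Finite V] (G : SimpleGraph V) (M : Set E3) (hM : Mirrors M)
    (hMne : M.Nonempty) (f : V → E3) (γ : V → V → ℝ → E3)
    (h : IsDr G f γ) (hv1 : ∀ v, ‖f v‖ = 1)
    (he1 : ∀ u v, G.Adj u v → ∀ t ∈ Icc (0 : ℝ) 1, ‖γ u v t‖ = 1)
    (hs : ∀ n ∈ M, ∃ σ : V → V, (∀ v, f (σ v) = rf n (f v)) ∧
      ∀ u v, G.Adj u v → G.Adj (σ u) (σ v))
    (hno : ∀ n ∈ M, ∀ u v, G.Adj u v → 0 < ⟪n, f u⟫ → 0 ≤ ⟪n, f v⟫)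
    (hup : ∀ n ∈ M, HalfDrawn G f γ n ∨ HalfDrawn G f γ (-n))
    (c : E3) (hc : ∀ n ∈ M, ⟪n, c⟫ ≠ 0) (K : SimpleGraph V) (hK : K ≤ G)
    (hK' : ∀ x y, (∀ n ∈ M, 0 < ⟪n, c⟫ → 0 ≤ ⟪n, f x⟫) →
      (∀ n ∈ M, 0 < ⟪n, c⟫ → 0 ≤ ⟪n, f y⟫) → G.Adj x y → K.Adj x y) (q : ℝ) (hq : 4 ≤ q)
    (hne : (chr K).eval q ≠ 0) :
    0 < (chr G).eval q := by
  classical
  have hex : ∀ n : E3, ∃ (σ : V → V), n ∈ M →
      Mq G (fun v => ⟪n, f v⟫) σ q ∧ ∀ v, f (σ v) = rf n (f v) := by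
    intro n
    by_cases hn : n ∈ M
    · obtain ⟨σ, h1, h2⟩ := hs n hn
      refine ⟨σ, fun _ => ⟨?_, h1⟩⟩
      rcases hup n hn with h3 | h3
      · obtain ⟨ord, h4⟩ := sphere_mir Pool.Agent.Y438.SP.disc G f γ h hv1 he1 n (hM.unit n hn) σ
          h1 h2 (hno n hn) h3
        exact h4.toMq q hq
      · obtain ⟨ord, h4⟩ := sphere_mir Pool.Agent.Y438.SP.disc G f γ h hv1 he1 (-n)
          (hM.unit _ (hM.neg hn)) σ (fun v => by rw [rf_neg_left]; exact h1 v) h2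
          (hno _ (hM.neg hn)) h3
        have h5 := (h4.toMq q hq).neg
        have h6 : (fun v => - ⟪-n, f v⟫) = fun v => (⟪n, f v⟫ : ℝ) := by
          funext v
          rw [inner_neg_left, neg_neg]
        rw [h6] at h5
        exact h5
    · exact ⟨id, fun h => absurd h hn⟩
  choose σ hmir using hex
  exact main Pool.Agent.Y165.SP.comb Pool.Agent.Y445.SP.wall Pool.Agent.Y79.SP.t_conn
    Pool.Agent.Y445.SP.cover G M hM hMne f σ q hq (fun n hn => (hmir n hn).1)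
    (fun n hn => (hmir n hn).2) {n | n ∈ M ∧ 0 < ⟪n, c⟫} ⟨c, hc, rfl⟩ K hK
    (fun x y hx hy hxy => hK' x y (fun n h1 h2 => hx n ⟨h1, h2⟩) (fun n h1 h2 => hy n ⟨h1, h2⟩)
      hxy) hne

theorem wk_iso {V W : Type} {G : SimpleGraph V} {H : SimpleGraph W} (e : G ≃g H)
    (h : Pool.Agent.Y865.RF.WK V G) : Pool.Agent.Y865.RF.WK W H := by
  obtain ⟨x, A, h1, h2⟩ := h
  refine ⟨fun i => e (x i), fun i j => e '' (A i j), ?_, ?_⟩
  · intro a b hab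
    obtain ⟨w, hw⟩ := h1 a b hab
    refine ⟨w.map e.toHom, ?_⟩
    intro z hz
    rw [SimpleGraph.Walk.support_map, List.mem_map] at hz
    obtain ⟨y, hy, rfl⟩ := hz
    exact ⟨y, hw y hy, rfl⟩
  · intro a b c d h3 h4 h5 h6 h7 h8
    exact (Set.disjoint_image_iff e.injective).2 (h2 a b c d h3 h4 h5 h6 h7 h8)

/-- the part in a closed chamber is planar -/
theorem chamber_planar {V : Type} [Finite V] (G : SimpleGraph V) (M : Set E3) (hM : Mirrors M)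
    (hMne : M.Nonempty) (f : V → E3) (γ : V → V → ℝ → E3)
    (h : IsDr G f γ) (hv1 : ∀ v, ‖f v‖ = 1)
    (he1 : ∀ u v, G.Adj u v → ∀ t ∈ Icc (0 : ℝ) 1, ‖γ u v t‖ = 1)
    (hs : ∀ n ∈ M, ∃ σ : V → V, (∀ v, f (σ v) = rf n (f v)) ∧
      ∀ u v, G.Adj u v → G.Adj (σ u) (σ v))
    (hup : ∀ n ∈ M, HalfDrawn G f γ n ∨ HalfDrawn G f γ (-n))
    (c : E3) (hc : ∀ n ∈ M, ⟪n, c⟫ ≠ 0) :
    ¬ Pool.Agent.Y865.RF.WK _ (G.induce {v | ∀ n ∈ M, 0 < ⟪n, c⟫ → 0 ≤ ⟪n, f v⟫}) := by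
  obtain ⟨m, hm, hmc⟩ : ∃ m ∈ M, 0 < ⟪m, c⟫ := by
    obtain ⟨n, hn⟩ := hMne
    rcases lt_or_gt_of_ne (hc n hn) with h1 | h1
    · refine ⟨-n, hM.neg hn, ?_⟩
      rw [inner_neg_left]
      linarith
    · exact ⟨n, hn, h1⟩
  rcases hup m hm with h1 | h1
  · exact hemi_planar G f γ h hv1 he1 m (hM.unit m hm) h1 _ (fun v hv => hv m hm hmc)
  · obtain ⟨σ, hσ, hadj⟩ := hs m hm
    have hm1 := hM.unit m hm
    have hσσ : ∀ v, σ (σ v) = v := by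
      intro v
      apply h.1
      rw [hσ, hσ, rf_rf _ hm1]
    intro hK
    -- the mirror image of the chamber
    let D : Set V := {v | ∀ n ∈ M, 0 < ⟪n, c⟫ → 0 ≤ ⟪n, f v⟫}
    let D' : Set V := {v | σ v ∈ D}
    have h2 := hemi_planar G f γ h hv1 he1 (-m) (hM.unit _ (hM.neg hm)) h1 D' (by
      intro v hv
      have h3 : 0 ≤ ⟪m, f (σ v)⟫ := hv m hm hmc
      rw [hσ, inner_rf _ hm1] at h3
      rw [inner_neg_left]
      exact h3)
    apply h2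
    let e : G.induce D ≃g G.induce D' :=
      { toFun := fun v => ⟨σ v.1, by
          change σ (σ v.1) ∈ D
          rw [hσσ]
          exact v.2⟩
        invFun := fun v => ⟨σ v.1, v.2⟩
        left_inv := fun v => Subtype.ext (hσσ v.1)
        right_inv := fun v => Subtype.ext (hσσ v.1)
        map_rel_iff' := by
          intro a b
          change G.Adj (σ a.1) (σ b.1) ↔ G.Adj a.1 b.1
          constructor
          · intro h4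
            have := hadj _ _ h4
            rwa [hσσ, hσσ] at this
          · exact hadj _ _ }
    exact wk_iso e hK

end Pool.Agent.Y865.SP
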