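import Mathlib

/-!
Kaleidoscopic graphs on the sphere: definitions and statements of the parts.
-/

set_option autoImplicit false

namespace Pool.Agent.Y865.SP

open scoped RealInnerProductSpace

/-- folding a set `S` of chambers at a mirror: `r` is the reflection, `side` the positive side -/
def foldP {Ω : Type} (r : Ω → Ω) (side : Ω → Prop) (S : Set Ω) : Set Ω :=
  {w | (side w ∧ w ∈ S) ∨ (¬ side w ∧ r w ∈ S)}

/-- folding to the other side -/
def foldM {Ω : Type} (r : Ω → Ω) (side : Ω → Prop) (S : Set Ω) : Set Ω :=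
  {w | (¬ side w ∧ w ∈ S) ∨ (side w ∧ r w ∈ S)}

/-- COMB: a family of sets of chambers which contains a nonempty set and is closed under all
foldings contains the set of all chambers. -/
def S_COMB : Prop := ∀ (Ω T : Type) [Finite Ω] (r : T → Ω → Ω) (side : T → Ω → Prop)
  (adj : Ω → Ω → Prop),
  (∀ t w, r t (r t w) = w) → (∀ t w, side t (r t w) ↔ ¬ side t w) →
  (∀ w w', adj w w' → adj w' w) →
  (∀ t w w', adj w w' → adj (r t w) (r t w')) →
  (∀ t w w', adj w w' → side t w → ¬ side t w' → w' = r t w) →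
  (∀ S : Set Ω, S.Nonempty → S ≠ Set.univ → ∃ w ∈ S, ∃ t, r t w ∉ S ∧ adj w (r t w)) →
  ∀ 𝒮 : Set (Set Ω), (∃ S ∈ 𝒮, S.Nonempty) → (∀ t, ∀ S ∈ 𝒮, foldP (r t) (side t) S ∈ 𝒮) →
  (∀ t, ∀ S ∈ 𝒮, foldM (r t) (side t) S ∈ 𝒮) → Set.univ ∈ 𝒮

section

variable {E : Type} [NormedAddCommGroup E] [InnerProductSpace ℝ E]

/-- the reflection in the mirror with unit normal vector `n` -/
noncomputable def rf (n x : E) : E := x - (2 * ⟪n, x⟫) • n

/-- `M` is a finite set of unit normal vectors of mirrors, closed under the reflections. -/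
structure Mirrors (M : Set E) : Prop where
  fin : M.Finite
  unit : ∀ n ∈ M, ‖n‖ = 1
  closed : ∀ n ∈ M, ∀ m ∈ M, rf n m ∈ M

/-- `C` is a chamber: the set of the normal vectors which are positive at a point `p` on no
mirror -/
def IsCh (M C : Set E) : Prop := ∃ p : E, (∀ n ∈ M, ⟪n, p⟫ ≠ 0) ∧ C = {n | n ∈ M ∧ 0 < ⟪n, p⟫}

/-- two chambers which are separated by exactly one mirror -/
def AdjCh (C C' : Set E) : Prop := ∃ n ∈ C, C' = (C \ {n}) ∪ {-n}

/-- WALL: if two chambers are separated by exactly one mirror, the reflection in this mirror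
exchanges them. -/
def S_WALL : Prop := ∀ (E : Type) [NormedAddCommGroup E] [InnerProductSpace ℝ E] (M C C' : Set E)
  (n : E), Mirrors M → IsCh M C → IsCh M C' → n ∈ C → C' = (C \ {n}) ∪ {-n} → C' = rf n '' C

/-- CONN: if some but not all chambers belong to `S`, two adjacent chambers are separated by `S`. -/
def S_CONN : Prop := ∀ (E : Type) [NormedAddCommGroup E] [InnerProductSpace ℝ E] (M : Set E),
  Mirrors M → ∀ S : Set (Set E), (∃ C, IsCh M C ∧ C ∈ S) → (∃ C, IsCh M C ∧ C ∉ S) →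
  ∃ C C' n, IsCh M C ∧ C ∈ S ∧ IsCh M C' ∧ C' ∉ S ∧ n ∈ C ∧ C' = (C \ {n}) ∪ {-n}

/-- COVER: two points not separated by a mirror lie in a common closed chamber. -/
def S_COVER : Prop := ∀ (E : Type) [NormedAddCommGroup E] [InnerProductSpace ℝ E] (M : Set E),
  Mirrors M → ∀ a b : E, (∀ n ∈ M, 0 < ⟪n, a⟫ → 0 ≤ ⟪n, b⟫) →
  ∃ C, IsCh M C ∧ ∀ n ∈ C, 0 ≤ ⟪n, a⟫ ∧ 0 ≤ ⟪n, b⟫

end

/-- DISC: two paths in the closed unit disc with interlaced end points on the circle meet. -/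
def S_DISC : Prop := ∀ (A B : ℝ → ℂ), Continuous A → Continuous B →
  (∀ s, ‖A s‖ ≤ 1) → (∀ s, ‖B s‖ ≤ 1) → ∀ a b c d : ℝ, a < b → b < c → c < d →
  d < a + 2 * Real.pi → A 0 = Complex.exp (a * Complex.I) → A 1 = Complex.exp (c * Complex.I) →
  B 0 = Complex.exp (b * Complex.I) → B 1 = Complex.exp (d * Complex.I) →
  ∃ s t, s ∈ Set.Icc (0 : ℝ) 1 ∧ t ∈ Set.Icc (0 : ℝ) 1 ∧ A s = B t

end Pool.Agent.Y865.SP
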